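import Mathlib
import Pool.Agent.Lib.MP_3fd305_al.Six.Var

/-!
# Subvarieties of `𝔄𝔑₆`

The variety `𝔄𝔑₆` of the groups with an abelian normal subgroup whose quotient is nilpotent of
class at most `6` has continuum many subvarieties, and subvarieties which are not finitely based.
-/

namespace Pool.Agent.Results.MP_3fd305_al.ContinuumSix

open Pool.Agent.Lib.MP_3fd305_al.Six

universe u

/-- There are sets `𝒱 A` of words, one for each set `A` of natural numbers, such that the variety
defined by `𝒱 A` is contained in `𝔄𝔑₆`, different sets `A` give different varieties, and the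
variety defined by `𝒱 A` is not finitely based if `A` is infinite. -/
theorem result : ∃ 𝒱 : Set ℕ → Set (FreeGroup ℕ),
    (∀ (A : Set ℕ) (G : Type u) [Group G], InVariety (𝒱 A) G → IsAN 6 G) ∧
    (∀ A B : Set ℕ, (∀ (G : Type) [Group G], InVariety (𝒱 A) G ↔ InVariety (𝒱 B) G) → A = B) ∧
    (∀ A : Set ℕ, A.Infinite → ∀ W : Set (FreeGroup ℕ), W.Finite →
      ¬ ∀ (G : Type) [Group G], InVariety (𝒱 A) G ↔ InVariety W G) :=
  main

end Pool.Agent.Results.MP_3fd305_al.ContinuumSix
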